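import Pool.Agent.R546.MK.Main

/-!
# The directed Schreier graph of the Bernoulli shift of a free group has no measurable kernel
-/

set_option autoImplicit false

namespace Pool.Agent.Results.MP_2e25e6_lc.NoMeasurableKernel

open MeasureTheory

/-- The space `2^F_n`, with the product topology. -/
abbrev X (n : ℕ) : Type := FreeGroup (Fin n) → Bool

/-- The Bernoulli shift `(g · x)(h) = x(h g)`. -/
def act {n : ℕ} (g : FreeGroup (Fin n)) (x : X n) : X n := fun h => x (h * g)

/-- The free part. -/
def FreePart (n : ℕ) : Set (X n) := {x | ∀ g : FreeGroup (Fin n), g ≠ 1 → act g x ≠ x}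

/-- The arcs `x → a_i · x` of the directed Schreier graph. -/
def Arc {n : ℕ} (x y : X n) : Prop := ∃ i : Fin n, y = act (FreeGroup.of i) x

/-- `A` is a kernel of the directed graph induced on `Y`. -/
structure IsKernel {n : ℕ} (Y A : Set (X n)) : Prop where
  subset : A ⊆ Y
  independent : ∀ x ∈ A, ∀ y ∈ A, ¬ (Arc x y ∨ Arc y x)
  absorbing : ∀ x ∈ Y, x ∉ A → ∃ y ∈ A, Arc x y

/-- The uniform measure on `{0, 1}`. -/
noncomputable def coin : Measure Bool :=
  (2⁻¹ : ENNReal) • (Measure.dirac true + Measure.dirac false)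

/-- The product of the uniform measures. -/
noncomputable def muB (n : ℕ) : Measure (X n) := Measure.infinitePi fun _ => coin

/-- There are an invariant conull Borel subset `Y` of the free part and a Borel kernel of the
directed Schreier graph induced on `Y`. -/
def HasMeasurableKernel (n : ℕ) : Prop :=
  ∃ Y A : Set (X n), MeasurableSet[borel (X n)] Y ∧ Y ⊆ FreePart n ∧
    (∀ g : FreeGroup (Fin n), ∀ x, x ∈ Y ↔ act g x ∈ Y) ∧ muB n Y = 1 ∧
    MeasurableSet[borel (X n)] A ∧ IsKernel Y A

/-- For every `n ≥ 2` the directed Schreier graph has no measurable kernel. -/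
theorem result (n : ℕ) (hn : 2 ≤ n) : ¬ HasMeasurableKernel n := by
  rintro ⟨Y, A, hY, -, hinv, hmu, hA, hker⟩
  have hc : Countable (FreeGroup (Fin n)) :=
    Function.Injective.countable FreeGroup.toWord_injective
  have hb : (inferInstance : MeasurableSpace (X n)) = borel (X n) := BorelSpace.measurable_eq
  rw [← hb] at hY hA
  refine R546.MK.no_kernel hn hA ?_
  have hY1 : ∀ᵐ x ∂(R546.MK.bern (FreeGroup (Fin n)) R546.MK.unif), x ∈ Y := by
    have h : R546.MK.bern (FreeGroup (Fin n)) R546.MK.unif Y = 1 := hmu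
    rw [← prob_compl_eq_zero_iff hY] at h
    exact h
  filter_upwards [hY1] with x hx
  constructor
  · intro hxA i hi
    exact hker.independent x hxA _ hi (Or.inl ⟨i, rfl⟩)
  · intro h
    by_contra hxA
    obtain ⟨y, hy, i, rfl⟩ := hker.absorbing x hx hxA
    exact h i hy

end Pool.Agent.Results.MP_2e25e6_lc.NoMeasurableKernel
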